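import Pool.Agent.H572R5.PC.Core

/-!
# Compatibility of bounded low-influence distributions
-/

set_option autoImplicit false

namespace Pool.Agent.H572R5.PC

open Finset Pool.Agent.H572R2 Pool.Agent.H572R4.QA

variable {N : ℕ}

open Classical in
/-- Two bounded families with small average influences: at all but an `η` fraction of the points
some member of the first and some member of the second do not vanish. -/
theorem compat : ∃ C : ℝ, 0 < C ∧ ∀ (N d : ℕ) (B η : ℝ), 1 ≤ d → 1 ≤ B → 0 < η → η ≤ 1 →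
    ∀ (κ κ' : Type) (s : Finset κ) (t : Finset κ') (p : κ → ℝ) (q : κ' → ℝ)
      (f : κ → (Fin N → Bool) → ℝ) (g : κ' → (Fin N → Bool) → ℝ),
      (∀ k ∈ s, 0 ≤ p k) → (∀ k ∈ t, 0 ≤ q k) →
      (∀ k ∈ s, DegLe d (f k)) → (∀ k ∈ t, DegLe d (g k)) →
      (∀ x, ∑ k ∈ s, p k * f k x ^ 2 ≤ B ^ 2) → (∀ x, ∑ k ∈ t, q k * g k x ^ 2 ≤ B ^ 2) →
      EE (fun x => ∑ k ∈ s, p k * f k x ^ 2) = 1 → EE (fun x => ∑ k ∈ t, q k * g k x ^ 2) = 1 →
      (∀ i, ∑ k ∈ s, p k * EE (fun x => ((f k x - f k (flp i x)) / 2) ^ 2)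
        ≤ (2 * (d:ℝ) * B / η) ^ (-(C * Real.log (2 * (d:ℝ))))) →
      (∀ i, ∑ k ∈ t, q k * EE (fun x => ((g k x - g k (flp i x)) / 2) ^ 2)
        ≤ (2 * (d:ℝ) * B / η) ^ (-(C * Real.log (2 * (d:ℝ))))) →
      ((Finset.univ.filter
        (fun x : Fin N → Bool => ∀ k ∈ s, ∀ l ∈ t, f k x * g l x = 0)).card : ℝ) ≤ η * 2 ^ N := by
  obtain ⟨C, hC, hcore⟩ := core
  refine ⟨C, hC, ?_⟩
  intro N d B η hd hB hη hη1 κ κ' s t p q f g hp hq hdf hdg hbf hbg hnf hng hif hig
  have h1 := hcore N d B η hd hB hη hη1 κ s p f hp hdf hbf hnf hif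
  have h2 := hcore N d B η hd hB hη hη1 κ' t q g hq hdg hbg hng hig
  have h3 : EE (fun x : Fin N → Bool =>
      if ∀ k ∈ s, ∀ l ∈ t, f k x * g l x = 0 then (1:ℝ) else 0) ≤ η := by
    have h4 : EE (fun x : Fin N → Bool =>
        if ∀ k ∈ s, ∀ l ∈ t, f k x * g l x = 0 then (1:ℝ) else 0)
        ≤ EE (fun x => (if ∑ k ∈ s, p k * f k x ^ 2 = 0 then (1:ℝ) else 0)
            + (if ∑ k ∈ t, q k * g k x ^ 2 = 0 then (1:ℝ) else 0)) := by
      refine EE_mono fun x => ?_
      have e0 : (0:ℝ) ≤ (if ∑ k ∈ s, p k * f k x ^ 2 = 0 then (1:ℝ) else 0) := by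
        split_ifs <;> norm_num
      have e1 : (0:ℝ) ≤ (if ∑ k ∈ t, q k * g k x ^ 2 = 0 then (1:ℝ) else 0) := by
        split_ifs <;> norm_num
      by_cases hx : ∀ k ∈ s, ∀ l ∈ t, f k x * g l x = 0
      · rw [if_pos hx]
        by_cases hF : ∑ k ∈ s, p k * f k x ^ 2 = 0
        · rw [if_pos hF]; linarith
        · have hG : ∑ k ∈ t, q k * g k x ^ 2 = 0 := by
            obtain ⟨k, hk, hk0⟩ := Finset.exists_ne_zero_of_sum_ne_zero hF
            have hfk : f k x ≠ 0 := by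
              intro h0
              apply hk0
              rw [h0]; ring
            refine Finset.sum_eq_zero fun l hl => ?_
            have := hx k hk l hl
            rcases mul_eq_zero.1 this with h0 | h0
            · exact absurd h0 hfk
            · rw [h0]; ring
          rw [if_pos hG]; linarith
      · rw [if_neg hx]; linarith
    refine h4.trans ?_
    rw [EE_add]
    linarith
  unfold EE at h3
  rw [div_le_iff₀ (by positivity), ← Finset.sum_filter, Finset.sum_const, nsmul_eq_mul,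
    mul_one] at h3
  exact h3

end Pool.Agent.H572R5.PC
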