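import Pool.Agent.H572R4.QB.Main2
import Pool.Agent.H572R4.QB.E1

/-!
# Low-influence bounded families of polynomials are nonzero at most points
-/

set_option autoImplicit false

namespace Pool.Agent.H572R5.PC

open Finset Pool.Agent.H572R2 Pool.Agent.H572R4.QA

variable {N : ℕ}

/-- character -/
noncomputable def chi (S : Finset (Fin N)) (x : Fin N → Bool) : ℝ :=
  ∏ i ∈ S, (-1 : ℝ) ^ (x i).toNat

/-- Fourier coefficient -/
noncomputable def fcB (f : (Fin N → Bool) → ℝ) (S : Finset (Fin N)) : ℝ :=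
  Pool.Agent.H722R2.AA.fc (E1aux.tr f) S

lemma chi_eq_sg (S : Finset (Fin N)) (x : Fin N → Bool) :
    chi S x = ∏ e ∈ S, Pool.Agent.H722R2.AA.sg (A1aux.eqv N x) e := by
  unfold chi
  refine Finset.prod_congr rfl fun i _ => ?_
  exact (A1aux.toU_cast (x i)).symm

lemma fcB_eq (f : (Fin N → Bool) → ℝ) (S : Finset (Fin N)) :
    fcB f S = EE (fun x => f x * chi S x) := by
  rw [E1aux.EE_eq_Ex]
  unfold fcB
  rw [Pool.Agent.H746R2.AA.fc_eq_Ex]
  refine Pool.Agent.H746R2.AA.Ex_congr fun u => ?_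
  simp only [E1aux.tr]
  rw [chi_eq_sg, Equiv.apply_symm_apply]

lemma inversion (f : (Fin N → Bool) → ℝ) (x : Fin N → Bool) :
    f x = ∑ S : Finset (Fin N), fcB f S * chi S x := by
  have h := Pool.Agent.H722R2.AA.ml_fc (E1aux.tr f) (A1aux.eqv N x)
  have h2 : E1aux.tr f (A1aux.eqv N x) = f x := by
    simp only [E1aux.tr, Equiv.symm_apply_apply]
  rw [h2] at h
  rw [← h]
  unfold Pool.Agent.H722R2.AA.ml fcB
  refine Finset.sum_congr rfl fun S _ => ?_
  rw [chi_eq_sg]

lemma parsevalB (f : (Fin N → Bool) → ℝ) :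
    EE (fun x => f x ^ 2) = ∑ S : Finset (Fin N), fcB f S ^ 2 := by
  rw [E1aux.EE_eq_Ex]
  exact Pool.Agent.H746R2.AA.parseval_sq (E1aux.tr f)

lemma infB (f : (Fin N → Bool) → ℝ) (i : Fin N) :
    EE (fun x => ((f x - f (flp i x)) / 2) ^ 2)
      = ∑ S ∈ Finset.univ.filter (fun S : Finset (Fin N) => i ∈ S), fcB f S ^ 2 := by
  have h := E1aux.inf1_eq_Inf f i
  rw [Pool.Agent.H746R2.AA.Inf_eq] at h
  rw [Finset.sum_filter]
  unfold fcB
  rw [← h]
  unfold inf1
  rw [div_eq_mul_inv, mul_comm, ← EE_mul]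
  refine EE_congr fun x => ?_
  unfold dd
  rw [sq_abs]
  ring

/-- coefficients of an explicit polynomial -/
lemma fcB_poly (c : Finset (Fin N) → ℝ) (S : Finset (Fin N)) :
    fcB (fun x => ∑ T : Finset (Fin N), c T * chi T x) S = c S := by
  have h := Pool.Agent.H746R2.AA.fc_ml c S
  unfold fcB
  rw [← h]
  congr 1
  funext u
  simp only [E1aux.tr]
  unfold Pool.Agent.H722R2.AA.ml
  refine Finset.sum_congr rfl fun T _ => ?_
  rw [chi_eq_sg, Equiv.apply_symm_apply]

lemma degLe_iff (d : ℕ) (f : (Fin N → Bool) → ℝ) :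
    DegLe d f ↔ ∀ S : Finset (Fin N), d < S.card → fcB f S = 0 := by
  unfold DegLe
  constructor
  · intro h S hS
    rw [fcB_eq]
    unfold EE chi
    rw [h S hS, zero_div]
  · intro h S hS
    have := h S hS
    rw [fcB_eq] at this
    unfold EE chi at this
    have h2 : (2:ℝ) ^ N ≠ 0 := by positivity
    exact (div_eq_zero_iff.1 this).resolve_right h2

lemma sum3 (S T U : Finset (Fin N)) (h : S.card + T.card < U.card) :
    ∑ x : Fin N → Bool, chi S x * chi T x * chi U x = 0 := by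
  have h1 : ∃ i ∈ U, i ∉ S ∪ T := by
    by_contra hc
    push Not at hc
    have h2 : U ⊆ S ∪ T := hc
    have h3 := Finset.card_le_card h2
    have h4 := Finset.card_union_le S T
    omega
  obtain ⟨i, hiU, hi⟩ := h1
  rw [Finset.mem_union, not_or] at hi
  have hs : ∀ (V : Finset (Fin N)), i ∉ V → ∀ x, chi V (flp i x) = chi V x := by
    intro V hV x
    unfold chi
    refine Finset.prod_congr rfl fun j hj => ?_
    rw [flp_ne]
    rintro rfl
    exact hV hj
  have h5 : ∑ x : Fin N → Bool, chi S x * chi T x * chi U x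
      = - ∑ x : Fin N → Bool, chi S x * chi T x * chi U x := by
    conv_lhs => rw [← Equiv.sum_comp (flpEquiv i)]
    rw [← Finset.sum_neg_distrib]
    refine Finset.sum_congr rfl fun x _ => ?_
    change chi S (flp i x) * chi T (flp i x) * chi U (flp i x) = _
    rw [hs S hi.1, hs T hi.2]
    have : chi U (flp i x) = - chi U x := e2_chi_flp_same U hiU x
    rw [this]; ring
  linarith

lemma degLe_mul (d e : ℕ) (f g : (Fin N → Bool) → ℝ) (hf : DegLe d f) (hg : DegLe e g) :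
    DegLe (d + e) (fun x => f x * g x) := by
  intro U hU
  have h1 : ∀ x : Fin N → Bool, f x * g x * ∏ i ∈ U, (-1 : ℝ) ^ (x i).toNat
      = ∑ S : Finset (Fin N), ∑ T : Finset (Fin N),
          fcB f S * fcB g T * (chi S x * chi T x * chi U x) := by
    intro x
    rw [inversion f x, inversion g x, Finset.sum_mul_sum, Finset.sum_mul]
    refine Finset.sum_congr rfl fun S _ => ?_
    rw [Finset.sum_mul]
    refine Finset.sum_congr rfl fun T _ => ?_
    unfold chi
    ring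
  rw [Finset.sum_congr rfl fun x _ => h1 x, Finset.sum_comm]
  refine Finset.sum_eq_zero fun S _ => ?_
  rw [Finset.sum_comm]
  refine Finset.sum_eq_zero fun T _ => ?_
  rw [← Finset.mul_sum]
  by_cases hS : d < S.card
  · rw [(degLe_iff d f).1 hf S hS]; simp
  by_cases hT : e < T.card
  · rw [(degLe_iff e g).1 hg T hT]; simp
  rw [sum3 S T U (by omega), mul_zero]

lemma degLe_sum {κ : Type*} (s : Finset κ) (d : ℕ) (p : κ → ℝ) (f : κ → (Fin N → Bool) → ℝ)
    (hf : ∀ k ∈ s, DegLe d (f k)) : DegLe d (fun x => ∑ k ∈ s, p k * f k x) := by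
  intro U hU
  have h1 : ∀ x : Fin N → Bool, (∑ k ∈ s, p k * f k x) * ∏ i ∈ U, (-1 : ℝ) ^ (x i).toNat
      = ∑ k ∈ s, p k * (f k x * ∏ i ∈ U, (-1 : ℝ) ^ (x i).toNat) := by
    intro x
    rw [Finset.sum_mul]
    exact Finset.sum_congr rfl fun k _ => by ring
  rw [Finset.sum_congr rfl fun x _ => h1 x, Finset.sum_comm]
  refine Finset.sum_eq_zero fun k hk => ?_
  rw [← Finset.mul_sum, hf k hk U hU, mul_zero]

/-- influences of the mean square -/
lemma inf_meanSq {κ : Type*} (s : Finset κ) (p : κ → ℝ) (hp : ∀ k ∈ s, 0 ≤ p k)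
    (f : κ → (Fin N → Bool) → ℝ) (B : ℝ) (hB : ∀ x, ∑ k ∈ s, p k * f k x ^ 2 ≤ B ^ 2) (i : Fin N) :
    EE (fun x => (((∑ k ∈ s, p k * f k x ^ 2) - ∑ k ∈ s, p k * f k (flp i x) ^ 2) / 2) ^ 2)
      ≤ 4 * B ^ 2 * ∑ k ∈ s, p k * EE (fun x => ((f k x - f k (flp i x)) / 2) ^ 2) := by
  have key : ∀ x : Fin N → Bool,
      (((∑ k ∈ s, p k * f k x ^ 2) - ∑ k ∈ s, p k * f k (flp i x) ^ 2) / 2) ^ 2
        ≤ 4 * B ^ 2 * ∑ k ∈ s, p k * ((f k x - f k (flp i x)) / 2) ^ 2 := by
    intro x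
    have e1 : ((∑ k ∈ s, p k * f k x ^ 2) - ∑ k ∈ s, p k * f k (flp i x) ^ 2) / 2
        = ∑ k ∈ s, (Real.sqrt (p k) * ((f k x - f k (flp i x)) / 2))
            * (Real.sqrt (p k) * (f k x + f k (flp i x))) := by
      rw [← Finset.sum_sub_distrib, Finset.sum_div]
      refine Finset.sum_congr rfl fun k hk => ?_
      have := Real.mul_self_sqrt (hp k hk)
      calc (p k * f k x ^ 2 - p k * f k (flp i x) ^ 2) / 2
          = p k * (((f k x - f k (flp i x)) / 2) * (f k x + f k (flp i x))) := by ring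
        _ = (Real.sqrt (p k) * Real.sqrt (p k))
              * (((f k x - f k (flp i x)) / 2) * (f k x + f k (flp i x))) := by rw [this]
        _ = _ := by ring
    rw [e1]
    refine (Finset.sum_mul_sq_le_sq_mul_sq _ _ _).trans ?_
    have e2 : ∑ k ∈ s, (Real.sqrt (p k) * ((f k x - f k (flp i x)) / 2)) ^ 2
        = ∑ k ∈ s, p k * ((f k x - f k (flp i x)) / 2) ^ 2 := by
      refine Finset.sum_congr rfl fun k hk => ?_
      rw [mul_pow, Real.sq_sqrt (hp k hk)]
    have e3 : ∑ k ∈ s, (Real.sqrt (p k) * (f k x + f k (flp i x))) ^ 2 ≤ 4 * B ^ 2 := by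
      calc ∑ k ∈ s, (Real.sqrt (p k) * (f k x + f k (flp i x))) ^ 2
          ≤ ∑ k ∈ s, (2 * (p k * f k x ^ 2) + 2 * (p k * f k (flp i x) ^ 2)) := by
            refine Finset.sum_le_sum fun k hk => ?_
            rw [mul_pow, Real.sq_sqrt (hp k hk)]
            nlinarith [mul_nonneg (hp k hk) (sq_nonneg (f k x - f k (flp i x)))]
        _ = 2 * (∑ k ∈ s, p k * f k x ^ 2) + 2 * ∑ k ∈ s, p k * f k (flp i x) ^ 2 := by
            rw [Finset.sum_add_distrib, Finset.mul_sum, Finset.mul_sum]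
        _ ≤ 4 * B ^ 2 := by linarith [hB x, hB (flp i x)]
    rw [e2, mul_comm (4 * B ^ 2)]
    exact mul_le_mul_of_nonneg_left e3
      (Finset.sum_nonneg fun k hk => mul_nonneg (hp k hk) (sq_nonneg _))
  calc EE (fun x => (((∑ k ∈ s, p k * f k x ^ 2) - ∑ k ∈ s, p k * f k (flp i x) ^ 2) / 2) ^ 2)
      ≤ EE (fun x => 4 * B ^ 2 * ∑ k ∈ s, p k * ((f k x - f k (flp i x)) / 2) ^ 2) := EE_mono key
    _ = 4 * B ^ 2 * ∑ k ∈ s, p k * EE (fun x => ((f k x - f k (flp i x)) / 2) ^ 2) := by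
        rw [EE_mul, EE_sum]
        congr 1
        refine Finset.sum_congr rfl fun k _ => ?_
        rw [EE_mul]

lemma num_core (C d B η δ : ℝ) (hC : 0 < C) (hd : 1 ≤ d) (hB : 1 ≤ B) (hη : 0 < η) (hη1 : η ≤ 1)
    (hδ : δ ≤ (2 * d * B / η) ^ (-((8 * C + 4) * Real.log (2 * d)))) :
    4 * δ < (η / (2 * B ^ 4) / (4 * (2 * d))) ^ (C * Real.log (2 * (2 * d))) := by
  set q : ℝ := 2 * d * B / η with hq
  have hq2 : 2 ≤ q := by
    rw [hq, le_div_iff₀ hη]
    nlinarith
  have hq0 : 0 < q := by linarith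
  have hl2 : 0.69 < Real.log 2 := by
    have := Real.log_two_gt_d9; linarith
  have hL : Real.log 2 ≤ Real.log (2 * d) := Real.log_le_log (by norm_num) (by linarith)
  have hL0 : 0.69 < Real.log (2 * d) := by linarith
  have hL2 : Real.log (2 * (2 * d)) ≤ 2 * Real.log (2 * d) := by
    rw [Real.log_mul (by norm_num) (by positivity)]
    linarith
  have hL20 : 0 ≤ Real.log (2 * (2 * d)) := Real.log_nonneg (by linarith)
  -- the base
  have hbase : q ^ (-(4:ℝ)) ≤ η / (2 * B ^ 4) / (4 * (2 * d)) := by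
    rw [Real.rpow_neg hq0.le]
    have h4 : q ^ (4:ℝ) = q ^ (4:ℕ) := by
      rw [← Real.rpow_natCast]; norm_num
    rw [h4, div_div, inv_eq_one_div, div_le_div_iff₀ (by positivity) (by positivity), hq, div_pow,
      one_mul, ← mul_div_assoc, le_div_iff₀ (by positivity)]
    have h5 : η ^ 4 ≤ η := by
      have : η ^ 4 ≤ η ^ 1 := pow_le_pow_of_le_one hη.le hη1 (by norm_num)
      simpa using this
    have h6 : d ≤ d ^ 4 := by
      have : d ^ 1 ≤ d ^ 4 := pow_le_pow_right₀ hd (by norm_num)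
      simpa using this
    have h7 : η ^ 4 * d ≤ η * d ^ 4 := mul_le_mul h5 h6 (by linarith) hη.le
    have hB4 : 0 < B ^ 4 := by positivity
    nlinarith [mul_le_mul_of_nonneg_left h7 (by positivity : (0:ℝ) ≤ 16 * B ^ 4)]
  have h8 : (q ^ (-(4:ℝ))) ^ (C * Real.log (2 * (2 * d)))
      ≤ (η / (2 * B ^ 4) / (4 * (2 * d))) ^ (C * Real.log (2 * (2 * d))) :=
    Real.rpow_le_rpow (by positivity) hbase (by positivity)
  refine lt_of_lt_of_le ?_ h8
  rw [← Real.rpow_mul hq0.le]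
  have h9 : q ^ (-(8 * C * Real.log (2 * d))) ≤ q ^ (-(4:ℝ) * (C * Real.log (2 * (2 * d)))) := by
    apply Real.rpow_le_rpow_of_exponent_le (by linarith)
    nlinarith [mul_le_mul_of_nonneg_left hL2 hC.le]
  refine lt_of_lt_of_le ?_ h9
  have h10 : q ^ (-((8 * C + 4) * Real.log (2 * d)))
      = q ^ (-(8 * C * Real.log (2 * d))) * q ^ (-(4 * Real.log (2 * d))) := by
    rw [← Real.rpow_add hq0]
    congr 1
    ring
  rw [h10] at hδ
  have h11 : q ^ (-(4 * Real.log (2 * d))) < 1 / 4 := by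
    rw [Real.rpow_neg hq0.le, inv_eq_one_div]
    apply one_div_lt_one_div_of_lt (by norm_num)
    calc (4:ℝ) = 2 ^ (2:ℝ) := by norm_num
      _ < 2 ^ (4 * Real.log (2 * d)) := by
          apply Real.rpow_lt_rpow_of_exponent_lt (by norm_num)
          linarith
      _ ≤ q ^ (4 * Real.log (2 * d)) := Real.rpow_le_rpow (by norm_num) hq2 (by linarith)
  have h12 : 0 < q ^ (-(8 * C * Real.log (2 * d))) := by positivity
  calc 4 * δ ≤ 4 * (q ^ (-(8 * C * Real.log (2 * d))) * q ^ (-(4 * Real.log (2 * d)))) := by linarith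
    _ < 4 * (q ^ (-(8 * C * Real.log (2 * d))) * (1 / 4)) := by
        have := mul_lt_mul_of_pos_left h11 h12
        linarith
    _ = q ^ (-(8 * C * Real.log (2 * d))) := by ring

/-- A bounded family with small average influences vanishes on few points. -/
theorem core : ∃ C : ℝ, 0 < C ∧ ∀ (N d : ℕ) (B η : ℝ), 1 ≤ d → 1 ≤ B → 0 < η → η ≤ 1 →
    ∀ (κ : Type) (s : Finset κ) (p : κ → ℝ) (f : κ → (Fin N → Bool) → ℝ),
      (∀ k ∈ s, 0 ≤ p k) → (∀ k ∈ s, DegLe d (f k)) →
      (∀ x, ∑ k ∈ s, p k * f k x ^ 2 ≤ B ^ 2) →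
      EE (fun x => ∑ k ∈ s, p k * f k x ^ 2) = 1 →
      (∀ i, ∑ k ∈ s, p k * EE (fun x => ((f k x - f k (flp i x)) / 2) ^ 2)
        ≤ (2 * (d:ℝ) * B / η) ^ (-(C * Real.log (2 * (d:ℝ))))) →
      EE (fun x => if ∑ k ∈ s, p k * f k x ^ 2 = 0 then (1:ℝ) else 0) ≤ η / 2 := by
  obtain ⟨C, hC, hmain⟩ := main03
  refine ⟨8 * C + 4, by positivity, ?_⟩
  intro N d B η hd hB hη hη1 κ s p f hp hdeg hbd hnorm hinf
  have hd1 : (1:ℝ) ≤ d := by exact_mod_cast hd
  have hB0 : 0 < B := by linarith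
  set Φ : (Fin N → Bool) → ℝ := fun x => ∑ k ∈ s, p k * f k x ^ 2 with hΦ
  have hΦ0 : ∀ x, 0 ≤ Φ x := fun x =>
    Finset.sum_nonneg fun k hk => mul_nonneg (hp k hk) (sq_nonneg _)
  set h : (Fin N → Bool) → ℝ := fun x => (1 / B ^ 2) * Φ x with hh
  have hh0 : ∀ x, 0 ≤ h x := fun x => mul_nonneg (by positivity) (hΦ0 x)
  have hh1 : ∀ x, h x ≤ 1 := by
    intro x
    simp only [hh]
    rw [one_div, inv_mul_le_iff₀ (by positivity), mul_one]
    exact hbd x
  have hhabs : ∀ x, |h x| ≤ 1 := fun x => by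
    rw [abs_of_nonneg (hh0 x)]; exact hh1 x
  have hhdeg : DegLe (2 * d) h := by
    have h1 : DegLe (2 * d) Φ := by
      apply degLe_sum
      intro k hk
      have := degLe_mul d d (f k) (f k) (hdeg k hk) (hdeg k hk)
      rw [two_mul]
      simpa only [sq] using this
    have h2 := degLe_sum (Finset.univ : Finset (Fin 1)) (2 * d) (fun _ => 1 / B ^ 2)
      (fun _ => Φ) (fun _ _ => h1)
    simpa only [Finset.univ_unique, Finset.sum_singleton] using h2
  have hvar : var h = (1 / B ^ 4) * (EE (fun x => Φ x ^ 2) - 1) := by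
    unfold var
    have e1 : EE (fun x => h x ^ 2) = (1 / B ^ 4) * EE (fun x => Φ x ^ 2) := by
      rw [← EE_mul]
      refine EE_congr fun x => ?_
      simp only [hh]
      field_simp
    have e2 : EE h = 1 / B ^ 2 := by
      have : EE h = (1 / B ^ 2) * EE Φ := EE_mul _ _
      rw [this, hnorm, mul_one]
    rw [e1, e2]
    field_simp
  -- the zero set
  have hzero : EE (fun x => if Φ x = 0 then (1:ℝ) else 0) ≤ EE (fun x => Φ x ^ 2) - 1 := by
    have e1 : EE (fun x => (Φ x - 1) ^ 2) = EE (fun x => Φ x ^ 2) - 1 := by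
      have e2 : ∀ x, (Φ x - 1) ^ 2 = (Φ x ^ 2 - 2 * Φ x) + 1 := fun x => by ring
      rw [EE_congr e2, EE_add, EE_sub, EE_mul, EE_const, hnorm]
      ring
    rw [← e1]
    refine EE_mono fun x => ?_
    split_ifs with hx
    · rw [hx]; norm_num
    · exact sq_nonneg _
  refine hzero.trans ?_
  by_contra hcon
  push Not at hcon
  have hB4 : (0:ℝ) < B ^ 4 := by positivity
  have hv : η / (2 * B ^ 4) ≤ var h := by
    rw [hvar]
    have : η / (2 * B ^ 4) = (1 / B ^ 4) * (η / 2) := by field_simp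
    rw [this]
    exact mul_le_mul_of_nonneg_left hcon.le (by positivity)
  have hv0 : 0 < var h := lt_of_lt_of_le (by positivity) hv
  obtain ⟨i, hi⟩ := hmain N (2 * d) h (by omega) hhabs hhdeg hv0
  have hi2 : EE (fun x => ((h x - h (flp i x)) / 2) ^ 2)
      ≤ 4 * (2 * (d:ℝ) * B / η) ^ (-((8 * C + 4) * Real.log (2 * (d:ℝ)))) := by
    have e1 : EE (fun x => ((h x - h (flp i x)) / 2) ^ 2)
        = (1 / B ^ 4) * EE (fun x => ((Φ x - Φ (flp i x)) / 2) ^ 2) := by
      rw [← EE_mul]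
      refine EE_congr fun x => ?_
      simp only [hh]
      field_simp
    rw [e1]
    have e2 := inf_meanSq s p hp f B hbd i
    have e3 := hinf i
    set δ := (2 * (d:ℝ) * B / η) ^ (-((8 * C + 4) * Real.log (2 * (d:ℝ)))) with hδ
    have hδ0 : 0 ≤ δ := by positivity
    calc (1 / B ^ 4) * EE (fun x => ((Φ x - Φ (flp i x)) / 2) ^ 2)
        ≤ (1 / B ^ 4) * (4 * B ^ 2 * δ) := by
          apply mul_le_mul_of_nonneg_left _ (by positivity)
          refine e2.trans ?_
          exact mul_le_mul_of_nonneg_left e3 (by positivity)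
      _ = 4 * δ * (1 / B ^ 2) := by field_simp
      _ ≤ 4 * δ * 1 := by
          apply mul_le_mul_of_nonneg_left _ (by positivity)
          rw [div_le_one (by positivity)]
          nlinarith
      _ = 4 * δ := mul_one _
  have hnum := num_core C d B η _ hC hd1 hB hη hη1 le_rfl
  have hmono : (η / (2 * B ^ 4) / (4 * (2 * (d:ℝ)))) ^ (C * Real.log (2 * (2 * (d:ℝ))))
      ≤ (var h / (4 * ((2 * d : ℕ) : ℝ))) ^ (C * Real.log (2 * ((2 * d : ℕ) : ℝ))) := by
    push_cast
    apply Real.rpow_le_rpow (by positivity)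
    · exact div_le_div_of_nonneg_right hv (by positivity)
    · have : 0 ≤ Real.log (2 * (2 * (d:ℝ))) := Real.log_nonneg (by linarith)
      positivity
  linarith

end Pool.Agent.H572R5.PC
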